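import Mathlib

/-!
# MP_c9c10f (small monochromatic rectangles), measurable colourings: `P(2)`

THEOREM (`ST_FIN`).  Every (Lebesgue) measurable 2-colouring of the plane `ℂ` has a monochromatic
`m × n` rectangle with `m, n ∈ {1, 2}`.

PROOF.  (1) `ST_CERT` (kernel check of the 3 x 5 patterns): for a valid pattern
`Qf b + h (col 0, col 1) - h (col 1, col 2) ≤ -70`.  (2) `ST_LOC`: integrate over all positions in a
ball of radius `R`: the potentials `h` telescope (translation invariance), so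
`∑ a_t G(u w_t) ≤ -70 π R² + K R` for every direction `u`, `G(v) = ∫ g(x) g(x + v)`,
`g = ± 1_{|x| ≤ R}`.  (3) `ST_AVG`: average over `u = exp(i θ)`; `G(v) = ∫ φ(ξ) cos(2π v·ξ) dξ`, `φ ≥ 0`
(Plancherel, `ST_PL`), the average of `G(u w)` is `∫ φ(ξ) J(2π |w| |ξ|) dξ`, `J` = Bessel function `J₀`
(`ST_CIRC`), and `F(s) = 69.9 + 228 J(s) + 88 J(√2 s) + 208 J(2s) + 52 J(√5 s) + 86 J(√8 s) ≥ 0` for
`s ≥ 0` (`ST_POS`).  The sums of the weights `a_t` over `|w_t|² = 1, 2, 4, 5, 8` are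
`228, 88, 208, 52, 86`.  So `0 ≤ 69.9 π R² - 70 π R² + K R`, false for large `R`.
-/

set_option autoImplicit false

open MeasureTheory

namespace Pool.Agent.Helper16.RC

/-- the colour of the four vertices of some `m × n` rectangle is the same -/
def Mono (c : ℂ → Bool) (m n : ℕ) : Prop :=
  ∃ z u : ℂ, ‖u‖ = 1 ∧ c (z + m * u) = c z ∧ c (z + n * (Complex.I * u)) = c z ∧
    c (z + m * u + n * (Complex.I * u)) = c z

/-! ### the window -/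

/-- the pairs: `(k, i, j, a)` is the pair of the cell `(0, i)` and the cell `(k, j)` with weight `a` -/
def Lst : List (ℕ × ℕ × ℕ × ℤ) :=
  [(0, 0, 1, 22), (0, 0, 2, 58), (0, 1, 2, 22), (0, 1, 3, 22), (0, 2, 3, 22), (0, 2, 4, 58),
   (0, 3, 4, 22), (1, 0, 0, 24), (1, 0, 1, 11), (1, 0, 2, 13), (1, 1, 0, 11), (1, 1, 1, 22),
   (1, 1, 2, 11), (1, 2, 0, 13), (1, 2, 1, 11), (1, 2, 2, 48), (1, 2, 3, 11), (1, 2, 4, 13),
   (1, 3, 2, 11), (1, 3, 3, 22), (1, 3, 4, 11), (1, 4, 2, 13), (1, 4, 3, 11), (1, 4, 4, 24),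
   (2, 0, 0, 12), (2, 0, 2, 16), (2, 1, 1, 11), (2, 1, 3, 11), (2, 2, 0, 16), (2, 2, 2, 24),
   (2, 2, 4, 16), (2, 3, 1, 11), (2, 3, 3, 11), (2, 4, 2, 16), (2, 4, 4, 12)]

/-- colours as signs -/
def sg (b : Bool) : ℤ := if b then 1 else -1

/-- the weighted sum of the products of the colours of the pairs -/
def Qf (b : ℕ → ℕ → Bool) : ℤ := (Lst.map fun t => t.2.2.2 * (sg (b 0 t.2.1) * sg (b t.1 t.2.2.1))).sum

/-- a pattern (columns `0, 1, 2`, rows `0, .., 4`) without monochromatic `m × n` rectangles,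
`m, n ∈ {1, 2}` -/
def Vld (b : ℕ → ℕ → Bool) : Prop :=
  ∀ k m i n : ℕ, (m = 1 ∨ m = 2) → (n = 1 ∨ n = 2) → k + m ≤ 2 → i + n ≤ 4 →
    ¬ (b (k + m) i = b k i ∧ b k (i + n) = b k i ∧ b (k + m) (i + n) = b k i)

/-- row CERT (done by helper16, kernel check) -/
def ST_CERT : Prop := ∃ h : (ℕ → Bool) → (ℕ → Bool) → ℤ, (∀ p q, |h p q| ≤ 512) ∧
  (∀ p q p' q', (∀ i < 5, p i = p' i) → (∀ i < 5, q i = q' i) → h p q = h p' q') ∧
  ∀ b, Vld b → Qf b + h (b 0) (b 1) - h (b 1) (b 2) ≤ -70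

/-! ### the Bessel function `J₀` -/

/-- the Bessel function `J₀` -/
noncomputable def J (s : ℝ) : ℝ :=
  (2 * Real.pi)⁻¹ * ∫ θ in (0:ℝ)..(2 * Real.pi), Real.cos (s * Real.sin θ)

noncomputable def F (s : ℝ) : ℝ :=
  699 / 10 + 228 * J s + 88 * J (√2 * s) + 208 * J (2 * s) + 52 * J (√5 * s) + 86 * J (√8 * s)

/-- row COS: Taylor with the exact remainder, all real `y`.  Together with
`|sin y - ∑_{j<n} (-1)^j y^(2j+1)/(2j+1)!| ≤ |y|^(2n+1)/(2n+1)!` by induction on `n`, for `y ≥ 0`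
(both sides are even in `y`): if `f(0) = g(0) = 0` and `|f'| ≤ g'` on `[0, ∞)` then `|f| ≤ g`. -/
def ST_COS : Prop := ∀ (n : ℕ) (y : ℝ),
  |Real.cos y - ∑ j ∈ Finset.range n, (-1 : ℝ) ^ j * y ^ (2 * j) / ((2 * j).factorial : ℝ)| ≤
    |y| ^ (2 * n) / ((2 * n).factorial : ℝ)

/-- row JT (from COS): integrate over `θ`; `(2π)⁻¹ ∫₀^{2π} sin^(2j) = C(2j, j) / 4^j`
(recursion `integral_sin_pow` with the end points `0, 2π`). -/
def ST_JT : Prop := ∀ (n : ℕ) (s : ℝ),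
  |J s - ∑ j ∈ Finset.range n, (-1 : ℝ) ^ j * (s ^ 2 / 4) ^ j / (j.factorial : ℝ) ^ 2| ≤
    (s ^ 2 / 4) ^ n / (n.factorial : ℝ) ^ 2

/-- row DEC (may use JT for the numbers `J 2 = .22389`, `J' 2 = - .57672`).  `J' s = -(2π)⁻¹ ∫ sin θ
sin(s sin θ)`, `J'' + J = (2π)⁻¹ ∫ cos² θ cos(s sin θ) = - J'/s` (parts).  `E s = s (J² + J'²) + J J' +
J²/(2 s)` has `E' = - J²/(2 s²) ≤ 0` and `E = s (J' + J/(2s))² + s J² + J²/(4s) ≥ s J²`.
`E 2 = .6489 ≤ .6724 = .82²`.  (Enclosure of `J' 2`: `|J''| ≤ 1/2`, so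
`|(J(2.01) - J 2)/.01 - J' 2| ≤ .0025`; or its own Taylor polynomial.) -/
def ST_DEC : Prop := ∀ s : ℝ, 2 ≤ s → |J s| ≤ 82 / 100 / √s

/-- row CH: for fixed `θ` the function `s ↦ ∑ A_d cos(d s sin θ)` has second derivative `≤ 2184 sin² θ`
(`228 + 2·88 + 4·208 + 5·52 + 8·86 = 2184`), so it is at least its chord minus
`2184 sin² θ (s-a)(b-s)/2`; average over `θ` (`(2π)⁻¹ ∫ sin² = 1/2`); `(s-a)(b-s) ≤ (b-a)²/4`;
`2184/2/2/4 = 273/2`. -/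
def ST_CH : Prop := ∀ a b s : ℝ, a ≤ s → s ≤ b →
  min (F a) (F b) - 273 / 2 * (b - a) ^ 2 ≤ F s

/-- row NUM (from JT): numbers.  `J(√d s)` at `s = k/12` is the series in `x = d k²/576`,
`x ≤ 2223`; `n = 150` terms (fewer for small `k`) give the remainder `x^n/n!² ≤ 10^-6`.  True minimum
of `F` is `1.18`, at `s = 10.82` and `4.47`.  One integer computation in the kernel (Horner:
`y_n = 1`, `y_j = 1 - x/(j+1)² y_(j+1)`, numerators and denominators integers, the same denominator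
for the five `d`; or fixed point with 60 digits). -/
def ST_NUM : Prop := ∀ k : ℕ, k ≤ 480 → 95 / 100 ≤ F ((k : ℝ) / 12)

/-- row POS (from CH, NUM, DEC): `s ≤ 40`: `273/2/144 = .948 ≤ .95`.  `s ≥ 40`: DEC,
`228 + 88/2^(1/4) + 208/√2 + 52/5^(1/4) + 86/8^(1/4) ≤ 535.1`, `535.1 · .82/√40 = 69.4 ≤ 69.9`. -/
def ST_POS : Prop := ∀ s : ℝ, 0 ≤ s → 0 ≤ F s

/-! ### Fourier analysis in the plane -/

/-- row PL: `φ ξ = ‖𝓕 g ξ‖²`.  Plancherel for `L¹ ∩ L²` (copy Pool/Agent/Helper45/MR/Planch.lean,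
`h4_plancherel`, with `ℝ` replaced by `ℂ` as the domain) applied to `g` and to `g + g(· + v)`:
`2 ∫ g g(·+v) = ‖g + τ g‖² - 2 ‖g‖² = ∫ (|1 + e^{2πi v·ξ}|² - 2) φ`, `|1 + e^{it}|² = 2 + 2 cos t`. -/
def ST_PL : Prop := ∀ (g : ℂ → ℝ) (R : ℝ), Measurable g → (∀ x, |g x| ≤ 1) →
  (∀ x, R < ‖x‖ → g x = 0) → ∃ φ : ℂ → ℝ, (∀ ξ, 0 ≤ φ ξ) ∧ Integrable φ ∧
    ∀ v : ℂ, ∫ x, g x * g (x + v) =
      ∫ ξ, φ ξ * Real.cos (2 * Real.pi * (v.re * ξ.re + v.im * ξ.im))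

/-- row CIRC: with `w = |w| e^{iα}`, `ξ = |ξ| e^{iβ}`: `Re(e^{iθ} w conj ξ) = |w||ξ| cos(θ + α - β)`;
shift of the period. -/
def ST_CIRC : Prop := ∀ w ξ : ℂ,
  (2 * Real.pi)⁻¹ * ∫ θ in (0:ℝ)..(2 * Real.pi),
    Real.cos (2 * Real.pi * ((Complex.exp (θ * Complex.I) * w).re * ξ.re +
      (Complex.exp (θ * Complex.I) * w).im * ξ.im)) = J (2 * Real.pi * (‖w‖ * ‖ξ‖))

/-- row AVG (from PL, CIRC, POS): `m d = ∫ φ ξ * J (2π d ‖ξ‖)` (Fubini), and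
`69.9 φ + ∑ A_d φ J(2π d ‖ξ‖) = φ F(2π ‖ξ‖) ≥ 0`.  Integrability in `θ`: `v ↦ ∫ φ cos(2π v·ξ)` is
continuous (dominated convergence). -/
def ST_AVG : Prop := ∀ (g : ℂ → ℝ) (R : ℝ), Measurable g → (∀ x, |g x| ≤ 1) →
  (∀ x, R < ‖x‖ → g x = 0) →
  (∀ w : ℂ, IntervalIntegrable (fun θ : ℝ => ∫ x, g x * g (x + Complex.exp (θ * Complex.I) * w))
    volume 0 (2 * Real.pi)) ∧
  ∃ m : ℝ → ℝ, (∀ w : ℂ, (2 * Real.pi)⁻¹ * ∫ θ in (0:ℝ)..(2 * Real.pi),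
      (∫ x, g x * g (x + Complex.exp (θ * Complex.I) * w)) = m ‖w‖) ∧
    0 ≤ 699 / 10 * (∫ x, g x * g x) + 228 * m 1 + 88 * m √2 + 208 * m 2 + 52 * m √5 + 86 * m √8

/-! ### from the pattern inequality to the integral inequality -/

/-- row LOC (from CERT; helper16 types it) -/
def ST_LOC : Prop := ∀ c : ℂ → Bool, NullMeasurableSet {z | c z = true} volume →
  (∀ m n : ℕ, (m = 1 ∨ m = 2) → (n = 1 ∨ n = 2) → ¬ Mono c m n) →
  ∃ K : ℝ, ∀ R : ℝ, 10 ≤ R → ∃ g : ℂ → ℝ, Measurable g ∧ (∀ x, |g x| ≤ 1) ∧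
    (∀ x, R < ‖x‖ → g x = 0) ∧ (∫ x, g x * g x) = Real.pi * R ^ 2 ∧
    ∀ u : ℂ, ‖u‖ = 1 →
      (Lst.map fun t => (t.2.2.2 : ℝ) *
        ∫ x, g x * g (x + u * ((t.1 : ℂ) + ((t.2.2.1 : ℂ) - (t.2.1 : ℂ)) * Complex.I))).sum ≤
      -70 * Real.pi * R ^ 2 + K * R

/-- row FIN (from AVG, LOC): the theorem -/
def ST_FIN : Prop := ∀ c : ℂ → Bool, NullMeasurableSet {z | c z = true} volume →
  ∃ m n : ℕ, (m = 1 ∨ m = 2) ∧ (n = 1 ∨ n = 2) ∧ Mono c m n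

end Pool.Agent.Helper16.RC
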