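import Pool.Agent.Helper16.RC.Defs

/-!
# MP_c9c10f: the window certificate for 5 x 3 patterns
-/

set_option autoImplicit false

namespace Pool.Agent.Helper16.RC

/-- packed potential -/
def Tb : ℕ := 0x800000000000000000000000000000000000038190000000000000000000d03000000704400000000000000000000000000000000000030160682c0000000001609058240018000600000000000000000000000000000000000004e190e000000000000340c0d00032270c80000000000000000000000000000000280d0a00028150a00000140d80000140680036140a8001a140680000000000000000002e190b8644e001380000001289c00000c8004a271289c32000c8000000000000000000004a28128a06c33000005036198d85025000006636140d85025000000000000000000000000019060004e0000000001c0d00032000000000270d000320000000000000000000b0c000000000000000b0680000000006000090b0000000000600009058000000000004e24138900000000004e241386400001209c4a221288800001209c4a221285c00000000030160c0580000000003016000000018000602c140b0500018000002c14000000000000004e19138000000000004e190000032270c8004a17128003227000004a17000000028128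cc00281b0a00033128a00000000000036140d80025198940036140d80000000002e19110904e00138004424110900000000004a271289c4800120004a271289c0000000000000128a03e1d000004a33000000000000000000198d83a1a0000050360000000000000000000600022000000000190000000000000000000d0001c0000000001c0000000000000000000000000000e000000000038001a0000000000000000000c800000000044000c0000000000000000001b0a000000d0746c330000000000000000001989400000e87c5025000000000000004e25138940024000904e251389400000000048221208800270009c48220c85c0000000006c281b0004a33128006c281b00000000000050251980050361400066251400000000b89400001386400250b89400191386400000c89c00000000000270c89c00000000000000a05800000c00028160a05830000c00000000b0600000000002c180b0600000000002e25110944e24000004425110944e240000032271209c00000000048271209c000000000000b04800300000000001604800300000000000d05800000000000001805800000000000000000064001a13800000000064001a0e00000000009c000c0c8000000000000000000000000128a06c281b0cc0000128a06c331b0a00000198d85025140940000000000000000000019000644e25138940019000004e250000000270009c32170c85c00000000000000000034280d00054281b0003428000006c2800000502a14000501a14000000000000000000000000000000001913864001a06068000000000001c0c89c00000000000000000000000000000000000030000c000120b0482c000000000160d0b060000000000000000000000000000000000000220e00000181a0000000000000000000c870000000000000000000000000000000000000040000000000000000000000000000000000000000000000000000000000000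

def hN (a b : ℕ) : ℕ := (Tb >>> (9 * (32 * a + b))) % 512

/-- no monochromatic rectangle with two rows `r, r + q`, `q ∈ {1, 2}`, in the columns `a, b` -/
def okc (a b : ℕ) : Bool :=
  [(0, 1), (1, 2), (2, 3), (3, 4), (0, 2), (1, 3), (2, 4)].all fun t =>
    !((b.testBit t.1 == a.testBit t.1) && (a.testBit t.2 == a.testBit t.1) && (b.testBit t.2 == a.testBit t.1))

/-- the pattern with the column codes `a, b, c` -/
def bits (a b c : ℕ) : ℕ → ℕ → Bool := fun k i =>
  match k with
  | 0 => a.testBit i
  | 1 => b.testBit i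
  | _ => c.testBit i

/-- number of different pairs (weighted), columns `a, b` (pairs with `k ≤ 1`) -/
def wA (a b : ℕ) : ℕ :=
  22 * ((a ^^^ a >>> 1) % 2) + 58 * ((a ^^^ a >>> 2) % 2) + 22 * ((a >>> 1 ^^^ a >>> 2) % 2) +
  22 * ((a >>> 1 ^^^ a >>> 3) % 2) + 22 * ((a >>> 2 ^^^ a >>> 3) % 2) +
  58 * ((a >>> 2 ^^^ a >>> 4) % 2) + 22 * ((a >>> 3 ^^^ a >>> 4) % 2) + 24 * ((a ^^^ b) % 2) +
  11 * ((a ^^^ b >>> 1) % 2) + 13 * ((a ^^^ b >>> 2) % 2) + 11 * ((a >>> 1 ^^^ b) % 2) +
  22 * ((a >>> 1 ^^^ b >>> 1) % 2) + 11 * ((a >>> 1 ^^^ b >>> 2) % 2) +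
  13 * ((a >>> 2 ^^^ b) % 2) + 11 * ((a >>> 2 ^^^ b >>> 1) % 2) +
  48 * ((a >>> 2 ^^^ b >>> 2) % 2) + 11 * ((a >>> 2 ^^^ b >>> 3) % 2) +
  13 * ((a >>> 2 ^^^ b >>> 4) % 2) + 11 * ((a >>> 3 ^^^ b >>> 2) % 2) +
  22 * ((a >>> 3 ^^^ b >>> 3) % 2) + 11 * ((a >>> 3 ^^^ b >>> 4) % 2) +
  13 * ((a >>> 4 ^^^ b >>> 2) % 2) + 11 * ((a >>> 4 ^^^ b >>> 3) % 2) +
  24 * ((a >>> 4 ^^^ b >>> 4) % 2)

/-- the same for the pairs with `k = 2` -/
def wB (a c : ℕ) : ℕ :=
  12 * ((a ^^^ c) % 2) + 16 * ((a ^^^ c >>> 2) % 2) + 11 * ((a >>> 1 ^^^ c >>> 1) % 2) +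
  11 * ((a >>> 1 ^^^ c >>> 3) % 2) + 16 * ((a >>> 2 ^^^ c) % 2) +
  24 * ((a >>> 2 ^^^ c >>> 2) % 2) + 16 * ((a >>> 2 ^^^ c >>> 4) % 2) +
  11 * ((a >>> 3 ^^^ c >>> 1) % 2) + 11 * ((a >>> 3 ^^^ c >>> 3) % 2) +
  16 * ((a >>> 4 ^^^ c >>> 2) % 2) + 12 * ((a >>> 4 ^^^ c >>> 4) % 2)

/-- packed tables -/
def OKT : ℕ := 0x70317000f033f000f0f5f000e0eee0077337700fa32fa00fcfcfc00e8e8e8070717170f0f3f3f0f0c5f4c0e0ceecc77707770faf0faf0fcc0fcc0e8c0e8c003170317033f033f0f5f0f5f0eee0eee3377307032fa30f0fcfcf0f0e8e8e0e0171717003f3f3f005f4c5f00eeccee0077707000faf0f000fcc0f000e8c0e000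

def TA : ℕ := 0x300b05c18090230bc0b05c16088230bc2e0e80c0601708c240c02f0ec1708c220b82f0ec3a1182008025896318c6370dc2b0ac308c23c8f2421082c0b0318c63d8f64310c370dc3c8f2489224e1381b8881b8882e0d22e0d2268b4268b4390fe390fe278b8278b83a1023a102328e4328e44512e4512e308ac2b0963c8dc370c63b8d8360c247908420f23c8dc370c64890c430f647908420f2539384e122401164592c401164592c4592c4b1424592c4b1424592c4b1424592c4b1424b142509584b14250958430f2430f23c8d83c8d84890848908420ee420ee4890848908420ee420ee4e11e4e11e4790447904509424b12c4b12c459165615850942509424b12c5615850942509424b12c5b96e561585615850942488f23d8c63c8c2318964e108430dc420d8370ac4e108430dc420d8370ac5391e488f2478ee3c8c21b89e268ca2e0e8391141b89e268ca2e0e839114220b82d0e4349023f92e220b82d0e4349023f92e3b8ee411044791e4d1343b8ee411044791e4d134421084791e4e1385394e421084791e4e1385394e2c0ca2c0ca390fe390fe2c0ca2c0ca390fe390fe328e4328e43f9183f918328e4328e43f9183f918410ee3b8d847908420f2410ee3b8d847908420f247908420f24e1224890c47908420f24e1224890c509585616e4b142509584b142509584592c4b1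42509585616e4b142509584b142509584592c4b142539345393447904479044e11e4e11e420ee420ee539345393447904479044e11e4e11e420ee420ee56158509424b12c45916509424b12c459164010056158509424b12c45916509424b12c45916401004e108430dc3c8c231896488f23d8c6370ac2c0804e108430dc3c8c231896488f23d8c6370ac2c080200b02b0dc318f63c922258c6308f23710c42138200b02b0dc318f63c922258c6308f23710c4213840100459164b12c50942459164b12c509425615840100459164b12c50942459164b12c50942561583b9083b90847938479384111e4111e4d14e4d14e3b9083b90847938479384111e4111e4d14e4d14e5092c4b116561425092c561425092c5b958561425092c4b116561425092c561425092c5b9585614243122489383c9084211e43122489383c9084211e3c9084211e360ee3b9043c9084211e360ee3b904460fe460fe390ca390ca460fe460fe390ca390ca3f8e43f8e4328b0328b03f8e43f8e4328b0328b05394e4e1384791e421085394e4e1384791e421084d1344791e411043b8ee4d1344791e411043b8ee4b8fe408d2390b42e0884b8fe408d2390b42e088450e43a0b83289a2786e450e43a0b83289a2786e308f23b91e3c9224794e2b0dc361083710c421382b0dc361083710c42138258c6308f2318f63c92250942561585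61585b96e4b12c5094250942561584b12c509425094256158459164b12c4b12c509424111e4111e47938479383b9083b90842122421223b9083b9084212242122360f2360f23c90c3c90c561425092c561425092c5092c4b1165092c4b1165092c4b1165092c4b1164b116459004b11645900489384e14e3c9084211e3d90c43122318dc370f23c9084211e308d8360ee318dc370f2258ac2b0c24b9144b914390ca390ca408e8408e82e09e2e09e3f8e43f8e42d09a2d09a348b8348b82206e2206e4e138489223c8f2370dc4310c3d8f6318c62c0b0421083c8f2308c22b0ac370dc318c62589620080460e83b0bc2e0882305c3b0bc300902305c180303a0b82f08c220581702c2f08c240601702c0c000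

def TB : ℕ := 0x702c321c1509c6a0b0c85848271a8c8800e0e0644e2a1c0d48619138906435219009c0e08064361a0e0944e190d8904c25138c0641c0f09c5228150cc6a27148c868331a8f8800b0c82c32271a89c6a0b0c82c32271a89c6a19138644e35218d48619138644e35218d486190d8643625138944e190d8643625138944e271489c52331a8cc6a271489c52331a8cc6a1c0d09c4a200f0ac5227128c8602b148d8681a0c094461e0e0a44e25118c05c29138d0642a0e0d44e1e080a436351390064290d8d04c280d0cc4a1c0709c3233128f860270c8c848271289c4a2b148ac52271289c4a2b148ac5225118944629138a44e25118944629138a44e35138d44e290d8a43635138d44e290d8a43633128cc4a270c89c3233128cc4a270c89c320b0c82c32271a89c6a0b0c82c32271a89c6a19138644e35218d48619138644e35218d486190d8643625138944e190d8643625138944e271489c52331a8cc6a271489c52331a8cc6a161202c32322009c6a0b0c8001c271a8705424190644e40270d48619138383835218a87024130643630190944e190d83820251386838321a09c523e200cc6a27148703c331a8a054271289c4a2b148ac52271289c4a2b148ac5225118944629138a44e25118944629138a44e35138d44e290d8a43635138d44e290d8a43633128cc4a270c89c3233128cc4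a270c89c32321809c4a361a0ac522712870342b148803c30170944634190a44e25118683029138783840190d44e34130a43635138a838290d878203e180cc4a321209c3233128a034270c8701c0e0e0644e1a140946619138906425198c07c100f06c521c1509c6a1b1489868271a8c8801c0f09c52180d08c4a27148c86823128b8601e100a4561a0e0944e29158d06c25138c06419138644e25198946619138644e2519894661b1486c52271a89c6a1b1486c52271a89c6a271489c52231288c4a271489c52231288c4a29158a45625138944e29158a45625138944e2a140d4661e0e0a44e35199007c29138d0641c0d09c4a100706c3227128c8601b0c89848381510c6a1c0709c32431a93880270c8c8482a0e0d44e0e000641635139006419058902c35198d46629138a44e35198d46629138a44e271289c4a1b0c86c32271289c4a1b0c86c32431a90c6a270c89c32431a90c6a270c89c3235138d44e19058641635138d44e19058641619138644e25198946619138644e2519894661b1486c52271a89c6a1b1486c52271a89c6a271489c52231288c4a271489c52231288c4a29158a45625138944e29158a45625138944e24190644e301f09466191383838251986850261a06c52322009c6a1b148403c271a87054321a09c522e1808c4a27148703c231286034341b0a45630190944e29158784025138683835198d46629138a44e35198d46629138a44e271289c4a1b0c86c32271289c4a1b0c86c32431a90c6a270c89c32431a90c6a270c89c3235138d44e19058641635138d44e190586416401f0d46634190a44e35198a850291387838321809c4a261206c322712870341b0c8401c4e2010c6a321209c32431a8e054270c8701c40190d44e240b0641635138a838190583800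

def okT (a b : ℕ) : Bool := OKT.testBit (32 * a + b)

def tA (a b : ℕ) : ℕ := (TA >>> (10 * (32 * a + b))) % 1024

def tB (a b : ℕ) : ℕ := (TB >>> (9 * (32 * a + b))) % 512

/-- check of the tables -/
def chkT (a : ℕ) : Bool :=
  (List.range 32).all fun b => (okT a b == okc a b) && (Nat.beq (tA a b) (wA a b) && Nat.beq (tB a b) (wB a b))

/-- `Q = 662 - 2 (wA a b + wB a c)` -/
def chkM (a : ℕ) : Bool :=
  (List.range 32).all fun b => !(okT a b) ||
    (List.range 32).all fun c => !(okT b c) || (!(okT a c) ||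
      Nat.ble (732 + hN a b) (2 * (tA a b + tB a c) + hN b c))

theorem chkT_0 : ([0, 1, 2, 3] : List ℕ).all chkT = true := by decide +kernel

theorem chkT_1 : ([4, 5, 6, 7] : List ℕ).all chkT = true := by decide +kernel

theorem chkT_2 : ([8, 9, 10, 11] : List ℕ).all chkT = true := by decide +kernel

theorem chkT_3 : ([12, 13, 14, 15] : List ℕ).all chkT = true := by decide +kernel

theorem chkT_4 : ([16, 17, 18, 19] : List ℕ).all chkT = true := by decide +kernel

theorem chkT_5 : ([20, 21, 22, 23] : List ℕ).all chkT = true := by decide +kernel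

theorem chkT_6 : ([24, 25, 26, 27] : List ℕ).all chkT = true := by decide +kernel

theorem chkT_7 : ([28, 29, 30, 31] : List ℕ).all chkT = true := by decide +kernel

theorem chkT_all (a : ℕ) (ha : a < 32) : chkT a = true := by
  have h0 := chkT_0
  have h1 := chkT_1
  have h2 := chkT_2
  have h3 := chkT_3
  have h4 := chkT_4
  have h5 := chkT_5
  have h6 := chkT_6
  have h7 := chkT_7
  simp only [List.all_cons, List.all_nil, Bool.and_true, Bool.and_eq_true] at h0 h1 h2 h3 h4 h5 h6 h7
  obtain ⟨a0, a1, a2, a3⟩ := h0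
  obtain ⟨a4, a5, a6, a7⟩ := h1
  obtain ⟨a8, a9, a10, a11⟩ := h2
  obtain ⟨a12, a13, a14, a15⟩ := h3
  obtain ⟨a16, a17, a18, a19⟩ := h4
  obtain ⟨a20, a21, a22, a23⟩ := h5
  obtain ⟨a24, a25, a26, a27⟩ := h6
  obtain ⟨a28, a29, a30, a31⟩ := h7
  interval_cases a
  exacts [a0, a1, a2, a3, a4, a5, a6, a7, a8, a9, a10, a11, a12, a13, a14, a15, a16, a17, a18, a19,
    a20, a21, a22, a23, a24, a25, a26, a27, a28, a29, a30, a31]

theorem chkM_0 : ([0, 1, 2, 3] : List ℕ).all chkM = true := by decide +kernel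

theorem chkM_1 : ([4, 5, 6, 7] : List ℕ).all chkM = true := by decide +kernel

theorem chkM_2 : ([8, 9, 10, 11] : List ℕ).all chkM = true := by decide +kernel

theorem chkM_3 : ([12, 13, 14, 15] : List ℕ).all chkM = true := by decide +kernel

theorem chkM_4 : ([16, 17, 18, 19] : List ℕ).all chkM = true := by decide +kernel

theorem chkM_5 : ([20, 21, 22, 23] : List ℕ).all chkM = true := by decide +kernel

theorem chkM_6 : ([24, 25, 26, 27] : List ℕ).all chkM = true := by decide +kernel

theorem chkM_7 : ([28, 29, 30, 31] : List ℕ).all chkM = true := by decide +kernel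

theorem chkM_all (a : ℕ) (ha : a < 32) : chkM a = true := by
  have h0 := chkM_0
  have h1 := chkM_1
  have h2 := chkM_2
  have h3 := chkM_3
  have h4 := chkM_4
  have h5 := chkM_5
  have h6 := chkM_6
  have h7 := chkM_7
  simp only [List.all_cons, List.all_nil, Bool.and_true, Bool.and_eq_true] at h0 h1 h2 h3 h4 h5 h6 h7
  obtain ⟨a0, a1, a2, a3⟩ := h0
  obtain ⟨a4, a5, a6, a7⟩ := h1
  obtain ⟨a8, a9, a10, a11⟩ := h2
  obtain ⟨a12, a13, a14, a15⟩ := h3
  obtain ⟨a16, a17, a18, a19⟩ := h4
  obtain ⟨a20, a21, a22, a23⟩ := h5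
  obtain ⟨a24, a25, a26, a27⟩ := h6
  obtain ⟨a28, a29, a30, a31⟩ := h7
  interval_cases a
  exacts [a0, a1, a2, a3, a4, a5, a6, a7, a8, a9, a10, a11, a12, a13, a14, a15, a16, a17, a18, a19,
    a20, a21, a22, a23, a24, a25, a26, a27, a28, a29, a30, a31]

/-- code of a column -/
def code (p : ℕ → Bool) : ℕ :=
  (p 0).toNat + 2 * (p 1).toNat + 4 * (p 2).toNat + 8 * (p 3).toNat + 16 * (p 4).toNat

theorem code_lt (p : ℕ → Bool) : code p < 32 := by
  unfold code
  have h := fun i => Bool.toNat_lt (p i)
  have h0 := h 0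
  have h1 := h 1
  have h2 := h 2
  have h3 := h 3
  have h4 := h 4
  omega

theorem testBit_code (p : ℕ → Bool) : ∀ i < 5, (code p).testBit i = p i := by
  have key : ∀ a b c d e : Bool,
      (a.toNat + 2 * b.toNat + 4 * c.toNat + 8 * d.toNat + 16 * e.toNat).testBit 0 = a ∧
      (a.toNat + 2 * b.toNat + 4 * c.toNat + 8 * d.toNat + 16 * e.toNat).testBit 1 = b ∧
      (a.toNat + 2 * b.toNat + 4 * c.toNat + 8 * d.toNat + 16 * e.toNat).testBit 2 = c ∧
      (a.toNat + 2 * b.toNat + 4 * c.toNat + 8 * d.toNat + 16 * e.toNat).testBit 3 = d ∧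
      (a.toNat + 2 * b.toNat + 4 * c.toNat + 8 * d.toNat + 16 * e.toNat).testBit 4 = e := by decide +kernel
  obtain ⟨h0, h1, h2, h3, h4⟩ := key (p 0) (p 1) (p 2) (p 3) (p 4)
  intro i hi
  interval_cases i
  exacts [h0, h1, h2, h3, h4]

theorem okc_of (p q : ℕ → Bool)
    (h : ∀ i n : ℕ, (n = 1 ∨ n = 2) → i + n ≤ 4 →
      ¬ (q i = p i ∧ p (i + n) = p i ∧ q (i + n) = p i)) : okc (code p) (code q) = true := by
  unfold okc
  rw [List.all_eq_true]
  intro t ht
  have ht' : ∀ t ∈ ([(0, 1), (1, 2), (2, 3), (3, 4), (0, 2), (1, 3), (2, 4)] : List (ℕ × ℕ)),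
      (t.2 = t.1 + 1 ∨ t.2 = t.1 + 2) ∧ t.2 ≤ 4 := by decide
  obtain ⟨h5, h4⟩ := ht' t ht
  have h6 : ∃ n, (n = 1 ∨ n = 2) ∧ t.2 = t.1 + n := by
    rcases h5 with h5 | h5
    · exact ⟨1, Or.inl rfl, h5⟩
    · exact ⟨2, Or.inr rfl, h5⟩
  obtain ⟨n, hn, h7⟩ := h6
  have h8 := h t.1 n hn (by omega)
  rw [h7, testBit_code p t.1 (by omega), testBit_code q t.1 (by omega),
    testBit_code p (t.1 + n) (by omega), testBit_code q (t.1 + n) (by omega)]
  rw [Bool.not_eq_true']
  by_contra h9
  rw [Bool.not_eq_false, Bool.and_eq_true, Bool.and_eq_true, beq_iff_eq, beq_iff_eq, beq_iff_eq] at h9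
  exact h8 ⟨h9.1.1, h9.1.2, h9.2⟩

theorem bit_term (a b i j : ℕ) : ((a >>> i ^^^ b >>> j) % 2 : ℕ) =
    (a.testBit i ^^ b.testBit j).toNat := by
  have h1 := Nat.testBit_xor (a >>> i) (b >>> j) 0
  rw [Nat.testBit_shiftRight, Nat.testBit_shiftRight, Nat.add_zero, Nat.add_zero,
    Nat.testBit_zero] at h1
  rw [← h1]
  rcases Nat.mod_two_eq_zero_or_one (a >>> i ^^^ b >>> j) with h | h <;> simp [h]

theorem sg_term (w : ℕ) (p q : Bool) :
    (w : ℤ) * (sg p * sg q) = w - 2 * ((w * (p ^^ q).toNat : ℕ) : ℤ) := by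
  cases p <;> cases q <;> simp [sg] <;> ring

theorem Qf_bits (a b c : ℕ) : Qf (bits a b c) = 662 - 2 * ((wA a b + wB a c : ℕ) : ℤ) := by
  have e0 : ∀ x : ℕ, x >>> 0 = x := fun x => rfl
  have k2 : ∀ (w x y i j : ℕ), (w : ℤ) * (sg (x.testBit i) * sg (y.testBit j)) =
      w - 2 * ((w * ((x >>> i ^^^ y >>> j) % 2) : ℕ) : ℤ) := by
    intro w x y i j
    rw [bit_term]
    exact sg_term w (x.testBit i) (y.testBit j)
  unfold Qf Lst wA wB bits
  simp only [List.map_cons, List.map_nil, List.sum_cons, List.sum_nil]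
  have t0 := k2 22 a a 0 1
  have t1 := k2 58 a a 0 2
  have t2 := k2 22 a a 1 2
  have t3 := k2 22 a a 1 3
  have t4 := k2 22 a a 2 3
  have t5 := k2 58 a a 2 4
  have t6 := k2 22 a a 3 4
  have t7 := k2 24 a b 0 0
  have t8 := k2 11 a b 0 1
  have t9 := k2 13 a b 0 2
  have t10 := k2 11 a b 1 0
  have t11 := k2 22 a b 1 1
  have t12 := k2 11 a b 1 2
  have t13 := k2 13 a b 2 0
  have t14 := k2 11 a b 2 1
  have t15 := k2 48 a b 2 2
  have t16 := k2 11 a b 2 3
  have t17 := k2 13 a b 2 4
  have t18 := k2 11 a b 3 2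
  have t19 := k2 22 a b 3 3
  have t20 := k2 11 a b 3 4
  have t21 := k2 13 a b 4 2
  have t22 := k2 11 a b 4 3
  have t23 := k2 24 a b 4 4
  have t24 := k2 12 a c 0 0
  have t25 := k2 16 a c 0 2
  have t26 := k2 11 a c 1 1
  have t27 := k2 11 a c 1 3
  have t28 := k2 16 a c 2 0
  have t29 := k2 24 a c 2 2
  have t30 := k2 16 a c 2 4
  have t31 := k2 11 a c 3 1
  have t32 := k2 11 a c 3 3
  have t33 := k2 16 a c 4 2
  have t34 := k2 12 a c 4 4
  simp only [e0] at t0 t1 t2 t3 t4 t5 t6 t7 t8 t9 t10 t11 t12 t13 t14 t15 t16 t17 t18 t19 t20 t21 t22 t23 t24 t25 t26 t27 t28 t29 t30 t31 t32 t33 t34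
  push_cast at t0 t1 t2 t3 t4 t5 t6 t7 t8 t9 t10 t11 t12 t13 t14 t15 t16 t17 t18 t19 t20 t21 t22 t23 t24 t25 t26 t27 t28 t29 t30 t31 t32 t33 t34 ⊢
  linarith

/-- the window inequality -/
theorem st_CERT : ST_CERT := by
  refine ⟨fun p q => (hN (code p) (code q) : ℤ), ?_, ?_, ?_⟩
  · intro p q
    have h : hN (code p) (code q) < 512 := Nat.mod_lt _ (by norm_num)
    show |((hN (code p) (code q) : ℕ) : ℤ)| ≤ 512
    rw [abs_of_nonneg (by positivity)]
    exact_mod_cast h.le
  · intro p q p' q' hp hq
    have e1 : code p = code p' := by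
      unfold code
      rw [hp 0 (by norm_num), hp 1 (by norm_num), hp 2 (by norm_num), hp 3 (by norm_num), hp 4 (by norm_num)]
    have e2 : code q = code q' := by
      unfold code
      rw [hq 0 (by norm_num), hq 1 (by norm_num), hq 2 (by norm_num), hq 3 (by norm_num), hq 4 (by norm_num)]
    simp only [e1, e2]
  · intro b hb
    have o1 : okc (code (b 0)) (code (b 1)) = true :=
      okc_of _ _ fun i n hn hi => hb 0 1 i n (Or.inl rfl) hn (by norm_num) hi
    have o2 : okc (code (b 1)) (code (b 2)) = true :=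
      okc_of _ _ fun i n hn hi => hb 1 1 i n (Or.inl rfl) hn (by norm_num) hi
    have o3 : okc (code (b 0)) (code (b 2)) = true :=
      okc_of _ _ fun i n hn hi => hb 0 2 i n (Or.inr rfl) hn (by norm_num) hi
    have tabs : ∀ a b : ℕ, a < 32 → b < 32 → okT a b = okc a b ∧ tA a b = wA a b ∧ tB a b = wB a b := by
      intro a b ha hb
      have h1 := chkT_all a ha
      unfold chkT at h1
      rw [List.all_eq_true] at h1
      have h2 := h1 b (List.mem_range.2 hb)
      rw [Bool.and_eq_true, Bool.and_eq_true, beq_iff_eq] at h2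
      exact ⟨h2.1, Nat.eq_of_beq_eq_true h2.2.1, Nat.eq_of_beq_eq_true h2.2.2⟩
    have l0 := code_lt (b 0)
    have l1 := code_lt (b 1)
    have l2 := code_lt (b 2)
    have h1 := chkM_all _ l0
    unfold chkM at h1
    rw [List.all_eq_true] at h1
    have h2 := h1 (code (b 1)) (List.mem_range.2 l1)
    rw [(tabs _ _ l0 l1).1, o1, Bool.not_true, Bool.false_or, List.all_eq_true] at h2
    have h3 := h2 (code (b 2)) (List.mem_range.2 l2)
    rw [(tabs _ _ l1 l2).1, (tabs _ _ l0 l2).1, o2, o3, Bool.not_true, Bool.false_or, Bool.false_or,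
      (tabs _ _ l0 l1).2.1, (tabs _ _ l0 l2).2.2] at h3
    have h3 := Nat.le_of_ble_eq_true h3
    have e : Qf (bits (code (b 0)) (code (b 1)) (code (b 2))) = Qf b := by
      unfold Qf
      congr 1
      apply List.map_congr_left
      intro t ht
      have hk : ∀ t ∈ Lst, t.1 < 3 ∧ t.2.1 < 5 ∧ t.2.2.1 < 5 := by decide
      obtain ⟨k1, k2, k3⟩ := hk t ht
      have f0 : ∀ i < 5, bits (code (b 0)) (code (b 1)) (code (b 2)) 0 i = b 0 i := testBit_code _
      have f1 : ∀ i < 5, bits (code (b 0)) (code (b 1)) (code (b 2)) 1 i = b 1 i := testBit_code _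
      have f2 : ∀ i < 5, bits (code (b 0)) (code (b 1)) (code (b 2)) 2 i = b 2 i := testBit_code _
      have g : bits (code (b 0)) (code (b 1)) (code (b 2)) t.1 t.2.2.1 = b t.1 t.2.2.1 := by
        generalize t.1 = k at k1
        interval_cases k
        · exact f0 _ k3
        · exact f1 _ k3
        · exact f2 _ k3
      rw [f0 _ k2, g]
    have e2 := Qf_bits (code (b 0)) (code (b 1)) (code (b 2))
    rw [e] at e2
    rw [e2]
    zify at h3
    push_cast at h3 ⊢
    linarith

end Pool.Agent.Helper16.RC
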