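import Pool.Agent.Helper16.RC.Defs

/-!
# MP_c9c10f: row LOC, from the window inequality to the integral inequality
-/

set_option autoImplicit false

open MeasureTheory

namespace Pool.Agent.Helper16.RC

theorem integ_of {f : ℂ → ℝ} {C R : ℝ} (hm : Measurable f) (hb : ∀ x, |f x| ≤ C)
    (hs : ∀ x, R < ‖x‖ → f x = 0) : Integrable f := by
  have h1 : IntegrableOn f (Metric.closedBall 0 R) volume := by
    refine Measure.integrableOn_of_bounded (M := C) ?_ hm.aestronglyMeasurable ?_
    · exact (isCompact_closedBall (0:ℂ) R).measure_lt_top.ne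
    · exact Filter.Eventually.of_forall fun x => by simpa using hb x
  refine (integrableOn_iff_integrable_of_support_subset ?_).1 h1
  intro x hx
  rw [Metric.mem_closedBall, dist_zero_right]
  by_contra hc
  exact hx (hs x (not_le.1 hc))

theorem int_list {ι : Type*} (L : List ι) (f : ι → ℂ → ℝ) (hf : ∀ t, Integrable (f t)) :
    Integrable (fun x => (L.map fun t => f t x).sum) ∧
      ∫ x, (L.map fun t => f t x).sum = (L.map fun t => ∫ x, f t x).sum := by
  induction L with
  | nil => simp
  | cons a L ih =>
    simp only [List.map_cons, List.sum_cons]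
    exact ⟨(hf a).add ih.1, by rw [integral_add (hf a) ih.1, ih.2]⟩

theorem ball_real {r : ℝ} (hr : 0 ≤ r) : volume.real (Metric.closedBall (0:ℂ) r) = Real.pi * r ^ 2 := by
  rw [Measure.real, Complex.volume_closedBall]
  rw [ENNReal.toReal_mul, ENNReal.toReal_pow, ENNReal.toReal_ofReal hr]
  simp [mul_comm]

/-- offsets -/
noncomputable def off (u : ℂ) (k i : ℕ) : ℂ := u * ((k : ℂ) + (i : ℂ) * Complex.I)

theorem off_norm {u : ℂ} (hu : ‖u‖ = 1) {k i : ℕ} (hk : k < 3) (hi : i < 5) : ‖off u k i‖ ≤ 5 := by
  unfold off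
  rw [norm_mul, hu, one_mul]
  have h1 : ‖(k : ℂ) + (i : ℂ) * Complex.I‖ ^ 2 = (k:ℝ) ^ 2 + (i:ℝ) ^ 2 := by
    rw [← Complex.normSq_eq_norm_sq, Complex.normSq_apply]
    simp
    ring
  have h2 : (k:ℝ) ≤ 2 := by exact_mod_cast (by omega : k ≤ 2)
  have h3 : (i:ℝ) ≤ 4 := by exact_mod_cast (by omega : i ≤ 4)
  have h4 : (0:ℝ) ≤ k := by positivity
  have h5 : (0:ℝ) ≤ i := by positivity
  have h6 : ‖(k : ℂ) + (i : ℂ) * Complex.I‖ ^ 2 ≤ 5 ^ 2 := by
    rw [h1]
    nlinarith
  exact (sq_le_sq₀ (norm_nonneg _) (by norm_num)).1 h6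

section

variable (R : ℝ) (d : ℂ → Bool)

/-- the truncated colouring -/
noncomputable def gg : ℂ → ℝ := (Metric.closedBall (0:ℂ) R).indicator fun x => ((sg (d x) : ℤ) : ℝ)

theorem sg_abs (b : Bool) : |((sg b : ℤ) : ℝ)| = 1 := by
  cases b <;> simp [sg]

theorem sg_sq (b : Bool) : ((sg b : ℤ) : ℝ) * ((sg b : ℤ) : ℝ) = 1 := by
  cases b <;> simp [sg]

theorem gg_abs (x : ℂ) : |gg R d x| ≤ 1 := by
  unfold gg
  by_cases h : x ∈ Metric.closedBall (0:ℂ) R
  · rw [Set.indicator_of_mem h]
    exact (sg_abs _).le
  · rw [Set.indicator_of_notMem h]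
    simp

theorem gg_in {x : ℂ} (h : ‖x‖ ≤ R) : gg R d x = ((sg (d x) : ℤ) : ℝ) := by
  unfold gg
  rw [Set.indicator_of_mem]
  simpa using h

theorem gg_out {x : ℂ} (h : R < ‖x‖) : gg R d x = 0 := by
  unfold gg
  rw [Set.indicator_of_notMem]
  simpa using h

theorem gg_meas (hd : Measurable d) : Measurable (gg R d) := by
  unfold gg
  refine Measurable.indicator ?_ measurableSet_closedBall
  exact (measurable_of_countable (fun b : Bool => ((sg b : ℤ) : ℝ))).comp hd

theorem gg_sq (hR : 0 ≤ R) : ∫ x, gg R d x * gg R d x = Real.pi * R ^ 2 := by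
  have h1 : (fun x => gg R d x * gg R d x) = (Metric.closedBall (0:ℂ) R).indicator fun _ => (1:ℝ) := by
    funext x
    by_cases h : x ∈ Metric.closedBall (0:ℂ) R
    · rw [Set.indicator_of_mem h, gg_in R d (by simpa using h), sg_sq]
    · rw [Set.indicator_of_notMem h, gg_out R d (by simpa using h), mul_zero]
  rw [h1, integral_indicator measurableSet_closedBall, setIntegral_const, smul_eq_mul, mul_one,
    ball_real hR]

/-- the pattern at `x` -/
noncomputable def pt (u x : ℂ) (k i : ℕ) : Bool := d (x + off u k i)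

theorem pt_shift (u x : ℂ) (k i : ℕ) : pt d u (x + u) k i = pt d u x (k + 1) i := by
  unfold pt off
  congr 1
  push_cast
  ring

/-- the potential at `x` -/
noncomputable def Hf (h : (ℕ → Bool) → (ℕ → Bool) → ℤ) (u x : ℂ) : ℝ :=
  open Classical in
  if ∀ k : Fin 2, ∀ i : Fin 5, ‖x + off u k i‖ ≤ R then ((h (pt d u x 0) (pt d u x 1) : ℤ) : ℝ) else 0

variable {d} {R}

theorem Hf_abs {h : (ℕ → Bool) → (ℕ → Bool) → ℤ} (hb : ∀ p q, |h p q| ≤ 512) (u x : ℂ) :
    |Hf R d h u x| ≤ 512 := by
  unfold Hf
  split_ifs
  · exact_mod_cast hb _ _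
  · simp

theorem Hf_meas (hd : Measurable d) {h : (ℕ → Bool) → (ℕ → Bool) → ℤ}
    (hdep : ∀ p q p' q', (∀ i < 5, p i = p' i) → (∀ i < 5, q i = q' i) → h p q = h p' q') (u : ℂ) :
    Measurable (Hf R d h u) := by
  have hadd : ∀ k i : ℕ, Measurable fun x : ℂ => x + off u k i := fun k i => measurable_id.add_const _
  have hpt : ∀ k i : ℕ, Measurable fun x : ℂ => pt d u x k i := fun k i => hd.comp (hadd k i)
  have h1 : MeasurableSet {x : ℂ | ∀ k : Fin 2, ∀ i : Fin 5, ‖x + off u k i‖ ≤ R} := by
    have h2 : {x : ℂ | ∀ k : Fin 2, ∀ i : Fin 5, ‖x + off u k i‖ ≤ R} =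
        ⋂ k : Fin 2, ⋂ i : Fin 5, {x : ℂ | ‖x + off u k i‖ ≤ R} := by
      ext x
      simp
    rw [h2]
    exact MeasurableSet.iInter fun k => MeasurableSet.iInter fun i =>
      measurableSet_le (hadd k i).norm measurable_const
  have h3 : Measurable fun x : ℂ => ((h (pt d u x 0) (pt d u x 1) : ℤ) : ℝ) := by
    let ext : (Fin 5 → Bool) → (ℕ → Bool) := fun p i => if hi : i < 5 then p ⟨i, hi⟩ else false
    let T : (Fin 2 → Fin 5 → Bool) → ℝ := fun P => ((h (ext (P 0)) (ext (P 1)) : ℤ) : ℝ)
    have h4 : (fun x : ℂ => ((h (pt d u x 0) (pt d u x 1) : ℤ) : ℝ)) =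
        fun x : ℂ => T (fun (k : Fin 2) (i : Fin 5) => pt d u x k i) := by
      funext x
      have h5 : h (pt d u x 0) (pt d u x 1) =
          h (ext fun i : Fin 5 => pt d u x 0 i) (ext fun i : Fin 5 => pt d u x 1 i) := by
        apply hdep
        · intro i hi
          simp [ext, hi]
        · intro i hi
          simp [ext, hi]
      rw [h5]
      rfl
    rw [h4]
    have h6 : Measurable T := measurable_of_countable T
    have h7 : Measurable fun x : ℂ => (fun (k : Fin 2) (i : Fin 5) => pt d u x k i) :=
      measurable_pi_iff.2 fun k => measurable_pi_iff.2 fun i => hpt k i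
    exact h6.comp h7
  exact Measurable.ite h1 h3 measurable_const

end

theorem st_LOC (hC : ST_CERT) : ST_LOC := by
  classical
  intro c hc hno
  obtain ⟨h, hb, hdep, hcert⟩ := hC
  obtain ⟨S, -, hS, hSe⟩ := hc.exists_measurable_subset_ae_eq
  -- the Borel version of the colouring
  let d : ℂ → Bool := fun z => decide (z ∈ S)
  have hd : Measurable d := by
    refine measurable_to_bool ?_
    have : d ⁻¹' {true} = S := by
      ext z
      simp [d]
    rw [this]
    exact hS
  have hde : ∀ᵐ z : ℂ, d z = c z := by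
    filter_upwards [hSe] with z hz
    have hz' : (z ∈ S) = (c z = true) := hz
    cases hcz : c z
    · rw [hcz] at hz'
      have : z ∉ S := by
        rw [hz']
        simp
      simp [d, this]
    · rw [hcz] at hz'
      have : z ∈ S := by
        rw [hz']
      simp [d, this]
  refine ⟨34420 * Real.pi, ?_⟩
  intro R hR
  refine ⟨gg R d, gg_meas R d hd, gg_abs R d, fun x hx => gg_out R d hx, gg_sq R d (by linarith), ?_⟩
  intro u hu
  -- the pointwise inequality
  let Qx : ℂ → ℝ := fun x => (Lst.map fun t => (t.2.2.2 : ℝ) *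
    (gg R d (x + off u 0 t.2.1) * gg R d (x + off u t.1 t.2.2.1))).sum
  let Bx : ℂ → ℝ := fun x => (Metric.closedBall (0:ℂ) (R + 5)).indicator (fun _ => (1686:ℝ)) x -
    (Metric.closedBall (0:ℂ) (R - 5)).indicator (fun _ => (1756:ℝ)) x
  have hvld : ∀ x, Vld fun k i => c (x + off u k i) := by
    intro x k m i n hm hn hkm hin hmono
    beta_reduce at hmono
    obtain ⟨m1, m2, m3⟩ := hmono
    refine hno m n hm hn ⟨x + off u k i, u, hu, ?_, ?_, ?_⟩
    · refine Eq.trans ?_ m1
      congr 1
      unfold off
      push_cast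
      ring
    · refine Eq.trans ?_ m2
      congr 1
      unfold off
      push_cast
      ring
    · refine Eq.trans ?_ m3
      congr 1
      unfold off
      push_cast
      ring
  have hae : ∀ᵐ x : ℂ, ∀ k i : ℕ, pt d u x k i = c (x + off u k i) := by
    rw [ae_all_iff]
    intro k
    rw [ae_all_iff]
    intro i
    exact (eventually_add_right_iff (μ := (volume : Measure ℂ)) (off u k i)
      (p := fun z => d z = c z)).2 hde
  have hQb : ∀ x, Qx x ≤ 662 := by
    intro x
    have h1 : ∀ L : List (ℕ × ℕ × ℕ × ℤ), (∀ t ∈ L, 0 ≤ t.2.2.2) →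
        (L.map fun t => (t.2.2.2 : ℝ) *
          (gg R d (x + off u 0 t.2.1) * gg R d (x + off u t.1 t.2.2.1))).sum ≤
        (((L.map fun t => t.2.2.2).sum : ℤ) : ℝ) := by
      intro L
      induction L with
      | nil => simp
      | cons a L ih =>
        intro hL
        simp only [List.map_cons, List.sum_cons, Int.cast_add]
        have h2 := ih fun t ht => hL t (List.mem_cons_of_mem _ ht)
        have h3 : (0:ℝ) ≤ (a.2.2.2 : ℝ) := by exact_mod_cast hL a List.mem_cons_self
        have h4 : gg R d (x + off u 0 a.2.1) * gg R d (x + off u a.1 a.2.2.1) ≤ 1 := by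
          refine (le_abs_self _).trans ?_
          rw [abs_mul]
          exact mul_le_one₀ (gg_abs R d _) (abs_nonneg _) (gg_abs R d _)
        nlinarith
    have h2 := h1 Lst (by decide)
    have h3 : (Lst.map fun t => t.2.2.2).sum = 662 := by decide
    rw [h3] at h2
    exact_mod_cast h2
  have hpoint : ∀ᵐ x : ℂ, Qx x + Hf R d h u x - Hf R d h u (x + u) ≤ Bx x := by
    filter_upwards [hae] with x hx
    by_cases h1 : ‖x‖ ≤ R - 5
    · -- inside
      have hin : ∀ k < 3, ∀ i < 5, ‖x + off u k i‖ ≤ R := by
        intro k hk i hi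
        have := norm_add_le x (off u k i)
        have := off_norm hu hk hi
        linarith
      have e1 : Bx x = -70 := by
        simp only [Bx]
        rw [Set.indicator_of_mem (by simpa using (by linarith : ‖x‖ ≤ R + 5)),
          Set.indicator_of_mem (by simpa using h1)]
        norm_num
      have e2 : Hf R d h u x = ((h (pt d u x 0) (pt d u x 1) : ℤ) : ℝ) := by
        unfold Hf
        rw [if_pos]
        intro k i
        exact hin k (by omega) i (by omega)
      have e3 : Hf R d h u (x + u) = ((h (pt d u x 1) (pt d u x 2) : ℤ) : ℝ) := by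
        unfold Hf
        rw [if_pos]
        · have e4 : pt d u (x + u) 0 = pt d u x 1 := funext fun i => pt_shift d u x 0 i
          have e5 : pt d u (x + u) 1 = pt d u x 2 := funext fun i => pt_shift d u x 1 i
          rw [e4, e5]
        · intro k i
          have e6 : x + u + off u k i = x + off u (k + 1) i := by
            unfold off
            push_cast
            ring
          rw [e6]
          exact hin (k + 1) (by omega) i (by omega)
      have e7 : Qx x = ((Qf (pt d u x) : ℤ) : ℝ) := by
        simp only [Qx]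
        unfold Qf
        have h2 : ∀ L : List (ℕ × ℕ × ℕ × ℤ), (∀ t ∈ L, t.1 < 3 ∧ t.2.1 < 5 ∧ t.2.2.1 < 5) →
          (L.map fun t => (t.2.2.2 : ℝ) *
            (gg R d (x + off u 0 t.2.1) * gg R d (x + off u t.1 t.2.2.1))).sum =
          (((L.map fun t => t.2.2.2 * (sg (pt d u x 0 t.2.1) * sg (pt d u x t.1 t.2.2.1))).sum : ℤ) : ℝ) := by
          intro L
          induction L with
          | nil => simp
          | cons a L ih =>
            intro hL
            obtain ⟨h3, h4, h5⟩ := hL a List.mem_cons_self
            simp only [List.map_cons, List.sum_cons, Int.cast_add]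
            rw [ih fun t ht => hL t (List.mem_cons_of_mem _ ht),
              gg_in R d (hin 0 (by norm_num) _ h4), gg_in R d (hin _ h3 _ h5)]
            push_cast
            rfl
        exact h2 Lst (by decide)
      have e8 : Vld (pt d u x) := by
        have : pt d u x = fun k i => c (x + off u k i) := funext fun k => funext fun i => hx k i
        rw [this]
        exact hvld x
      have e9 := hcert _ e8
      rw [e1, e2, e3, e7]
      have e10 : (((Qf (pt d u x) + h (pt d u x 0) (pt d u x 1) - h (pt d u x 1) (pt d u x 2) : ℤ)) : ℝ) ≤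
          ((-70 : ℤ) : ℝ) := by exact_mod_cast e9
      push_cast at e10
      exact e10
    · by_cases h2 : ‖x‖ ≤ R + 5
      · -- annulus
        have e1 : Bx x = 1686 := by
          simp only [Bx]
          rw [Set.indicator_of_mem (by simpa using h2), Set.indicator_of_notMem (by simpa using h1)]
          norm_num
        have e2 := hQb x
        have e3 := abs_le.1 (Hf_abs (R := R) (d := d) hb u x)
        have e4 := abs_le.1 (Hf_abs (R := R) (d := d) hb u (x + u))
        rw [e1]
        linarith [e3.2, e4.1]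
      · -- outside
        push_neg at h1 h2
        have hout : ∀ k < 3, ∀ i < 5, R < ‖x + off u k i‖ := by
          intro k hk i hi
          have h3 := norm_sub_norm_le x (-off u k i)
          rw [norm_neg, sub_neg_eq_add] at h3
          have := off_norm hu hk hi
          linarith
        have e1 : Bx x = 0 := by
          simp only [Bx]
          rw [Set.indicator_of_notMem (by simpa using h2), Set.indicator_of_notMem (by simpa using h1)]
          norm_num
        have e2 : Hf R d h u x = 0 := by
          unfold Hf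
          rw [if_neg]
          intro h3
          exact absurd (h3 0 0) (not_le.2 (hout 0 (by norm_num) 0 (by norm_num)))
        have e3 : Hf R d h u (x + u) = 0 := by
          unfold Hf
          rw [if_neg]
          intro h3
          have h4 := h3 0 0
          have e6 : x + u + off u ((0 : Fin 2) : ℕ) ((0 : Fin 5) : ℕ) = x + off u 1 0 := by
            unfold off
            simp
          rw [e6] at h4
          exact absurd h4 (not_le.2 (hout 1 (by norm_num) 0 (by norm_num)))
        have e7 : Qx x = 0 := by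
          simp only [Qx]
          have h2 : ∀ L : List (ℕ × ℕ × ℕ × ℤ), (∀ t ∈ L, t.1 < 3 ∧ t.2.1 < 5 ∧ t.2.2.1 < 5) →
            (L.map fun t => (t.2.2.2 : ℝ) *
              (gg R d (x + off u 0 t.2.1) * gg R d (x + off u t.1 t.2.2.1))).sum = 0 := by
            intro L
            induction L with
            | nil => simp
            | cons a L ih =>
              intro hL
              obtain ⟨h3, h4, h5⟩ := hL a List.mem_cons_self
              simp only [List.map_cons, List.sum_cons]
              rw [ih fun t ht => hL t (List.mem_cons_of_mem _ ht),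
                gg_out R d (hout 0 (by norm_num) _ h4)]
              simp
          exact h2 Lst (by decide)
        rw [e1, e2, e3, e7]
        norm_num
  -- integrate
  have hshift : ∀ a : ℂ, Measurable fun x : ℂ => x + a := fun a => measurable_id.add_const a
  have hgi : ∀ t : ℕ × ℕ × ℕ × ℤ, Integrable fun x : ℂ => (t.2.2.2 : ℝ) *
      (gg R d (x + off u 0 t.2.1) * gg R d (x + off u t.1 t.2.2.1)) := by
    intro t
    refine Integrable.const_mul ?_ _
    refine integ_of (C := 1) (R := R + ‖off u 0 t.2.1‖) ?_ ?_ ?_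
    · exact ((gg_meas R d hd).comp (hshift _)).mul ((gg_meas R d hd).comp (hshift _))
    · intro x
      rw [abs_mul]
      exact mul_le_one₀ (gg_abs R d _) (abs_nonneg _) (gg_abs R d _)
    · intro x hx
      rw [gg_out R d, zero_mul]
      have h3 := norm_sub_norm_le x (-off u 0 t.2.1)
      rw [norm_neg, sub_neg_eq_add] at h3
      linarith
  obtain ⟨hQi, hQe⟩ := int_list Lst _ hgi
  have hHi : Integrable (Hf R d h u) := by
    refine integ_of (C := 512) (R := R) (Hf_meas hd hdep u) (fun x => Hf_abs hb u x) ?_
    intro x hx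
    unfold Hf
    rw [if_neg]
    intro h3
    have h4 := h3 0 0
    have e6 : x + off u ((0 : Fin 2) : ℕ) ((0 : Fin 5) : ℕ) = x := by
      unfold off
      simp
    rw [e6] at h4
    linarith
  have hHi2 : Integrable (fun x => Hf R d h u (x + u)) := hHi.comp_add_right u
  have hBi1 : Integrable ((Metric.closedBall (0:ℂ) (R + 5)).indicator (fun _ => (1686:ℝ))) :=
    (integrable_indicator_iff measurableSet_closedBall).2
      (integrableOn_const (isCompact_closedBall (0:ℂ) _).measure_lt_top.ne)
  have hBi2 : Integrable ((Metric.closedBall (0:ℂ) (R - 5)).indicator (fun _ => (1756:ℝ))) :=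
    (integrable_indicator_iff measurableSet_closedBall).2
      (integrableOn_const (isCompact_closedBall (0:ℂ) _).measure_lt_top.ne)
  have hint := integral_mono_ae ((hQi.add hHi).sub hHi2) (hBi1.sub hBi2) hpoint
  have eB : ∫ x, ((Metric.closedBall (0:ℂ) (R + 5)).indicator (fun _ => (1686:ℝ)) -
      (Metric.closedBall (0:ℂ) (R - 5)).indicator (fun _ => (1756:ℝ))) x =
      1686 * (Real.pi * (R + 5) ^ 2) - 1756 * (Real.pi * (R - 5) ^ 2) := by
    have := integral_sub hBi1 hBi2
    simp only [Pi.sub_apply]
    rw [this, integral_indicator measurableSet_closedBall, integral_indicator measurableSet_closedBall,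
      setIntegral_const, setIntegral_const, ball_real (by linarith), ball_real (by linarith),
      smul_eq_mul, smul_eq_mul]
    ring
  have eL : ∫ x, ((fun x => (Lst.map fun t => (t.2.2.2 : ℝ) *
      (gg R d (x + off u 0 t.2.1) * gg R d (x + off u t.1 t.2.2.1))).sum) + Hf R d h u -
      fun x => Hf R d h u (x + u)) x = (Lst.map fun t => (t.2.2.2 : ℝ) *
        ∫ x, gg R d x * gg R d (x + u * ((t.1 : ℂ) + ((t.2.2.1 : ℂ) - (t.2.1 : ℂ)) * Complex.I))).sum := by
    have h1 := integral_sub (hQi.add hHi) hHi2
    have h2 := integral_add hQi hHi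
    have h3 : ∫ x, Hf R d h u (x + u) = ∫ x, Hf R d h u x := integral_add_right_eq_self _ u
    simp only [Pi.sub_apply, Pi.add_apply] at h1 ⊢
    rw [h1, h2, h3, hQe, add_sub_cancel_right]
    congr 1
    apply List.map_congr_left
    intro t _
    rw [integral_const_mul]
    congr 1
    have h4 := integral_add_right_eq_self (μ := (volume : Measure ℂ)) (fun y : ℂ => gg R d y *
      gg R d (y + u * ((t.1 : ℂ) + ((t.2.2.1 : ℂ) - (t.2.1 : ℂ)) * Complex.I))) (off u 0 t.2.1)
    rw [← h4]
    congr 1
    funext x
    congr 2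
    unfold off
    push_cast
    ring
  rw [eB] at hint
  rw [← eL]
  refine hint.trans ?_
  have hpi := Real.pi_pos
  nlinarith [mul_pos hpi (by linarith : (0:ℝ) < R)]

end Pool.Agent.Helper16.RC
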